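import Pool.Agent.Lib.MP_dea8c9_co.MQBasic

/-!
# Sets of mutually quasi-orthogonal latin squares which agree in common cells

Any two members of a set of mutually quasi-orthogonal latin squares of order `n` agree in exactly `n` cells.
If these cells are the same for all pairs of squares, then the set has at most `n - 1` members; if it has
`n - 1` members, then the cells form a row or a column and the set is maximal.
-/

set_option autoImplicit false

namespace Pool.Agent.Results.MP_dea8c9_co.CommonAgreement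

open Finset Pool.Agent.Lib.MP_dea8c9_co.MQ

variable {n N : ℕ}

/-- number of cells of `S` in the row `i` -/
def rowCount (S : Finset (Fin n × Fin n)) (i : Fin n) : ℕ := (S.filter fun p => p.1 = i).card

/-- number of cells of `S` in the column `j` -/
def colCount (S : Finset (Fin n × Fin n)) (j : Fin n) : ℕ := (S.filter fun p => p.2 = j).card

theorem agree_card {A B : Sq (Fin n)} (h : QuasiOrth A B) :
    (univ.filter fun p : Fin n × Fin n => A p.1 p.2 = B p.1 p.2).card = n := by
  rw [Finset.card_eq_sum_card_fiberwise (f := fun p : Fin n × Fin n => A p.1 p.2)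
    (t := (univ : Finset (Fin n))) (fun _ _ => Finset.mem_coe.2 (mem_univ _))]
  have : ∀ u : Fin n, (filter (fun a : Fin n × Fin n => A a.1 a.2 = u)
      (filter (fun p : Fin n × Fin n => A p.1 p.2 = B p.1 p.2) univ)).card = 1 := by
    intro u
    rw [← h.1 u]
    unfold cnt
    congr 1
    ext p
    simp only [mem_filter, mem_univ, true_and]
    constructor
    · rintro ⟨h1, h2⟩; exact ⟨h2, h1 ▸ h2⟩
    · rintro ⟨h1, h2⟩; exact ⟨h1.trans h2.symm, h1⟩
  simp [this]

theorem agree_mem {L : Fin N → Sq (Fin n)} (h : IsMQOLS L) {S : Finset (Fin n × Fin n)}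
    (hS : S.card = n) (hag : ∀ p ∈ S, ∀ k l, L k p.1 p.2 = L l p.1 p.2) {k l : Fin N} (hkl : k ≠ l)
    {i j : Fin n} (he : L k i j = L l i j) : (i, j) ∈ S := by
  have hsub : S ⊆ univ.filter fun p : Fin n × Fin n => L k p.1 p.2 = L l p.1 p.2 := by
    intro p hp
    exact Finset.mem_filter.2 ⟨mem_univ _, hag p hp k l⟩
  have heq := Finset.eq_of_subset_of_card_le hsub (by rw [agree_card (h.2 k l hkl), hS])
  rw [heq]
  exact Finset.mem_filter.2 ⟨mem_univ _, he⟩

theorem sym_inj {L : Fin N → Sq (Fin n)} (h : IsMQOLS L) {S : Finset (Fin n × Fin n)}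
    (hag : ∀ p ∈ S, ∀ k l, L k p.1 p.2 = L l p.1 p.2) (hN : 2 ≤ N) (k : Fin N)
    {p q : Fin n × Fin n} (hp : p ∈ S) (hq : q ∈ S) (he : L k p.1 p.2 = L k q.1 q.2) : p = q := by
  have : Nontrivial (Fin N) := Fin.nontrivial_iff_two_le.2 hN
  obtain ⟨l, hl⟩ := exists_ne k
  have h1 := (h.2 k l hl.symm).1 (L k p.1 p.2)
  unfold cnt at h1
  rw [Finset.card_eq_one] at h1
  obtain ⟨x, hx⟩ := h1
  have m1 : p ∈ ({x} : Finset (Fin n × Fin n)) := by
    rw [← hx]
    exact Finset.mem_filter.2 ⟨mem_univ _, rfl, (hag p hp l k)⟩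
  have m2 : q ∈ ({x} : Finset (Fin n × Fin n)) := by
    rw [← hx]
    exact Finset.mem_filter.2 ⟨mem_univ _, he.symm, (hag q hq l k).trans he.symm⟩
  rw [Finset.mem_singleton] at m1 m2
  exact m1.trans m2.symm

theorem count_le {L : Fin N → Sq (Fin n)} (h : IsMQOLS L) {S : Finset (Fin n × Fin n)}
    (hS : S.card = n) (hag : ∀ p ∈ S, ∀ k l, L k p.1 p.2 = L l p.1 p.2) (hN : 2 ≤ N)
    {i j : Fin n} (hij : (i, j) ∉ S) : N + rowCount S i + colCount S j ≤ n := by
  set k0 : Fin N := ⟨0, by omega⟩
  set f : Fin n × Fin n → Fin n := fun p => L k0 p.1 p.2 with hf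
  set V : Finset (Fin n) := univ.image fun k => L k i j
  set R : Finset (Fin n) := (S.filter fun p => p.1 = i).image f
  set C : Finset (Fin n) := (S.filter fun p => p.2 = j).image f
  have hV : V.card = N := by
    rw [Finset.card_image_of_injective, Finset.card_univ, Fintype.card_fin]
    intro k l he
    by_contra hkl
    exact hij (agree_mem h hS hag hkl he)
  have hinj : Set.InjOn f (S : Set (Fin n × Fin n)) := fun p hp q hq he =>
    sym_inj h hag hN k0 (Finset.mem_coe.1 hp) (Finset.mem_coe.1 hq) he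
  have hR : R.card = rowCount S i := Finset.card_image_of_injOn
    (hinj.mono (by intro p hp; exact (Finset.mem_filter.1 (Finset.mem_coe.1 hp)).1))
  have hC : C.card = colCount S j := Finset.card_image_of_injOn
    (hinj.mono (by intro p hp; exact (Finset.mem_filter.1 (Finset.mem_coe.1 hp)).1))
  have hVR : Disjoint V R := by
    rw [Finset.disjoint_left]
    intro x hx hx'
    obtain ⟨k, -, rfl⟩ := Finset.mem_image.1 hx
    obtain ⟨p, hp, hpx⟩ := Finset.mem_image.1 hx'
    obtain ⟨hpS, hpi⟩ := Finset.mem_filter.1 hp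
    have h1 : L k p.1 p.2 = L k i j := (hag p hpS k k0).trans hpx
    rw [hpi] at h1
    have h2 := ((h.1 k).1 i).1 h1
    exact hij (by rw [← hpi, ← h2]; exact hpS)
  have hVC : Disjoint V C := by
    rw [Finset.disjoint_left]
    intro x hx hx'
    obtain ⟨k, -, rfl⟩ := Finset.mem_image.1 hx
    obtain ⟨p, hp, hpx⟩ := Finset.mem_image.1 hx'
    obtain ⟨hpS, hpj⟩ := Finset.mem_filter.1 hp
    have h1 : L k p.1 p.2 = L k i j := (hag p hpS k k0).trans hpx
    rw [hpj] at h1
    have h2 : p.1 = i := ((h.1 k).2 j).1 h1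
    exact hij (by rw [← hpj, ← h2]; exact hpS)
  have hRC : Disjoint R C := by
    rw [Finset.disjoint_left]
    intro x hx hx'
    obtain ⟨p, hp, hpx⟩ := Finset.mem_image.1 hx
    obtain ⟨q, hq, hqx⟩ := Finset.mem_image.1 hx'
    obtain ⟨hpS, hpi⟩ := Finset.mem_filter.1 hp
    obtain ⟨hqS, hqj⟩ := Finset.mem_filter.1 hq
    have := hinj hpS hqS (hpx.trans hqx.symm)
    subst this
    exact hij (by rw [← hpi, ← hqj]; exact hpS)
  have hU : (V ∪ R ∪ C).card = N + rowCount S i + colCount S j := by
    rw [Finset.card_union_of_disjoint (Finset.disjoint_union_left.2 ⟨hVC, hRC⟩),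
      Finset.card_union_of_disjoint hVR, hV, hR, hC]
  rw [← hU]
  calc (V ∪ R ∪ C).card ≤ (univ : Finset (Fin n)).card := Finset.card_le_card (subset_univ _)
    _ = n := by rw [Finset.card_univ, Fintype.card_fin]

/-! ### Transposition -/

theorem latin_transpose {L : Sq (Fin n)} (h : IsLatin L) : IsLatin fun i j => L j i := ⟨h.2, h.1⟩

theorem cnt_transpose (A B : Sq (Fin n)) (u v : Fin n) :
    cnt (fun i j => A j i) (fun i j => B j i) u v = cnt A B u v := by
  unfold cnt
  exact Finset.card_equiv (Equiv.prodComm (Fin n) (Fin n)) fun p => by simp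

theorem qo_transpose {A B : Sq (Fin n)} :
    QuasiOrth (fun i j => A j i) (fun i j => B j i) ↔ QuasiOrth A B := by
  unfold QuasiOrth
  simp only [cnt_transpose]

theorem mqols_transpose {L : Fin N → Sq (Fin n)} (h : IsMQOLS L) :
    IsMQOLS fun k i j => L k j i :=
  ⟨fun k => latin_transpose (h.1 k), fun k l hkl => qo_transpose.2 (h.2 k l hkl)⟩

theorem one_le_rowCount {S : Finset (Fin n × Fin n)} {i j : Fin n} (h : (i, j) ∈ S) :
    1 ≤ rowCount S i :=
  Finset.card_pos.2 ⟨(i, j), Finset.mem_filter.2 ⟨h, rfl⟩⟩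

theorem one_le_colCount {S : Finset (Fin n × Fin n)} {i j : Fin n} (h : (i, j) ∈ S) :
    1 ≤ colCount S j :=
  Finset.card_pos.2 ⟨(i, j), Finset.mem_filter.2 ⟨h, rfl⟩⟩

/-- a set of `n` cells with at most one cell of the set in the cross of every other cell -/
theorem row_or_column {S : Finset (Fin n × Fin n)} (hn : 2 ≤ n) (hS : S.card = n)
    (h : ∀ i j, (i, j) ∉ S → rowCount S i + colCount S j ≤ 1) :
    (∃ i, S = univ.filter fun p => p.1 = i) ∨ ∃ j, S = univ.filter fun p => p.2 = j := by
  have hcardr : ∀ i : Fin n, (univ.filter fun p : Fin n × Fin n => p.1 = i).card = n := fun i => by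
    have : (univ.filter fun p : Fin n × Fin n => p.1 = i) = {i} ×ˢ univ := by
      ext p; simp only [mem_filter, mem_univ, true_and, mem_product, mem_singleton, and_true]
    rw [this, Finset.card_product]; simp
  have hcardc : ∀ j : Fin n, (univ.filter fun p : Fin n × Fin n => p.2 = j).card = n := fun j => by
    have : (univ.filter fun p : Fin n × Fin n => p.2 = j) = univ ×ˢ {j} := by
      ext p; simp only [mem_filter, mem_univ, true_and, mem_product, mem_singleton]
    rw [this, Finset.card_product]; simp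
  obtain ⟨⟨i0, j0⟩, h0⟩ : S.Nonempty := Finset.card_pos.1 (by omega)
  by_cases hc : ∀ i, (i, j0) ∈ S
  · refine Or.inr ⟨j0, (Finset.eq_of_subset_of_card_le ?_ (by rw [hcardc, hS])).symm⟩
    rintro ⟨i, j⟩ hp
    have : j = j0 := (Finset.mem_filter.1 hp).2
    rw [this]; exact hc i
  by_cases hr : ∀ j, (i0, j) ∈ S
  · refine Or.inl ⟨i0, (Finset.eq_of_subset_of_card_le ?_ (by rw [hcardr, hS])).symm⟩
    rintro ⟨i, j⟩ hp
    have : i = i0 := (Finset.mem_filter.1 hp).2
    rw [this]; exact hr j
  exfalso
  push Not at hc hr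
  obtain ⟨i1, hi1⟩ := hc
  obtain ⟨j1, hj1⟩ := hr
  have e1 := h i1 j0 hi1
  have e2 := h i0 j1 hj1
  have hc1 := one_le_colCount h0
  have hr1 := one_le_rowCount h0
  have hcol : colCount S j0 = 1 := by omega
  have hrow : rowCount S i0 = 1 := by omega
  have : ∃ q ∈ S, q ≠ (i0, j0) := by
    by_contra hcon
    push Not at hcon
    have : S ⊆ {(i0, j0)} := fun q hq => Finset.mem_singleton.2 (hcon q hq)
    have := Finset.card_le_card this
    rw [hS, Finset.card_singleton] at this
    omega
  obtain ⟨⟨i2, j2⟩, hq, hqne⟩ := this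
  have hnot : (i0, j2) ∉ S := by
    intro hm
    obtain ⟨x, hx⟩ := Finset.card_eq_one.1 hrow
    have m1 : ((i0, j0) : Fin n × Fin n) ∈ ({x} : Finset (Fin n × Fin n)) := by
      rw [← hx]; exact Finset.mem_filter.2 ⟨h0, rfl⟩
    have m2 : ((i0, j2) : Fin n × Fin n) ∈ ({x} : Finset (Fin n × Fin n)) := by
      rw [← hx]; exact Finset.mem_filter.2 ⟨hm, rfl⟩
    rw [Finset.mem_singleton] at m1 m2
    have hj : j2 = j0 := (Prod.ext_iff.1 (m2.trans m1.symm)).2
    subst hj
    obtain ⟨y, hy⟩ := Finset.card_eq_one.1 hcol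
    have m3 : ((i0, j2) : Fin n × Fin n) ∈ ({y} : Finset (Fin n × Fin n)) := by
      rw [← hy]; exact Finset.mem_filter.2 ⟨h0, rfl⟩
    have m4 : ((i2, j2) : Fin n × Fin n) ∈ ({y} : Finset (Fin n × Fin n)) := by
      rw [← hy]; exact Finset.mem_filter.2 ⟨hq, rfl⟩
    rw [Finset.mem_singleton] at m3 m4
    exact hqne (m4.trans m3.symm)
  have e3 := h i0 j2 hnot
  have := one_le_colCount hq
  omega

/-- Let `n ≥ 2` and let all squares of a set of at least two mutually quasi-orthogonal latin squares of order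
`n` agree in the `n` cells of `S`.  Then there are at most `n - r - c` squares, if `r` cells of `S` lie in the
row and `c` in the column of some cell outside `S`; hence at most `n - 1` squares, and at most `n - 2` if `S`
meets every row and every column.  If there are `n - 1` squares, then `S` is a row or a column, and no latin
square is quasi-orthogonal to all squares of the set. -/
theorem result (n N : ℕ) (hn : 2 ≤ n) (hN : 2 ≤ N) (L : Fin N → Sq (Fin n)) (hL : IsMQOLS L)
    (S : Finset (Fin n × Fin n)) (hS : S.card = n)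
    (hag : ∀ p ∈ S, ∀ k l, L k p.1 p.2 = L l p.1 p.2) :
    (∀ i j, (i, j) ∉ S → N + (S.filter fun p => p.1 = i).card + (S.filter fun p => p.2 = j).card ≤ n) ∧
    N ≤ n - 1 ∧
    ((∀ i, ∃ j, (i, j) ∈ S) → (∀ j, ∃ i, (i, j) ∈ S) → N ≤ n - 2) ∧
    (N = n - 1 →
      ((∃ i, S = univ.filter fun p => p.1 = i) ∨ ∃ j, S = univ.filter fun p => p.2 = j) ∧
      ∀ X : Sq (Fin n), IsLatin X → ∃ k, ¬ QuasiOrth (L k) X) := by
  have key : ∀ i j, (i, j) ∉ S → N + rowCount S i + colCount S j ≤ n := fun i j hij =>
    count_le hL hS hag hN hij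
  have : Nontrivial (Fin n) := Fin.nontrivial_iff_two_le.2 hn
  refine ⟨key, ?_, fun hr hc => ?_, fun hNn => ?_⟩
  · obtain ⟨⟨i0, j0⟩, h0⟩ : S.Nonempty := Finset.card_pos.1 (by omega)
    by_cases hr : ∀ j, (i0, j) ∈ S
    · obtain ⟨i1, hi1⟩ := exists_ne i0
      have hnot : (i1, j0) ∉ S := by
        intro hm
        have hsub : insert (i1, j0) (univ.image fun j : Fin n => (i0, j)) ⊆ S := by
          intro p hp
          rcases Finset.mem_insert.1 hp with rfl | hp
          · exact hm
          · obtain ⟨j, -, rfl⟩ := Finset.mem_image.1 hp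
            exact hr j
        have hle := Finset.card_le_card hsub
        rw [Finset.card_insert_of_notMem, Finset.card_image_of_injective, Finset.card_univ,
          Fintype.card_fin, hS] at hle
        · omega
        · intro a b hab
          exact (Prod.ext_iff.1 hab).2
        · intro hmem
          obtain ⟨j, -, hj⟩ := Finset.mem_image.1 hmem
          exact hi1 (Prod.ext_iff.1 hj).1.symm
      have h1 := key i1 j0 hnot
      have h2 := one_le_colCount h0
      omega
    · push Not at hr
      obtain ⟨j, hj⟩ := hr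
      have h1 := key i0 j hj
      have h2 := one_le_rowCount h0
      omega
  · have : ∃ p : Fin n × Fin n, p ∉ S := by
      by_contra hcon
      push Not at hcon
      have hle := Finset.card_le_card (fun p _ => hcon p : (univ : Finset (Fin n × Fin n)) ⊆ S)
      rw [hS, Finset.card_univ, Fintype.card_prod, Fintype.card_fin] at hle
      nlinarith
    obtain ⟨⟨i, j⟩, hij⟩ := this
    have h1 := key i j hij
    obtain ⟨j', hj'⟩ := hr i
    obtain ⟨i', hi'⟩ := hc j
    have h2 := one_le_rowCount hj'
    have h3 := one_le_colCount hi'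
    omega
  · have hrc := row_or_column hn hS fun i j hij => by
      have := key i j hij
      omega
    refine ⟨hrc, fun X hX => ?_⟩
    rcases hrc with ⟨i, hi⟩ | ⟨j, hj⟩
    · have hc : CommonColumn (fun k i j => L k j i) i := fun k l a =>
        hag (i, a) (by rw [hi]; exact Finset.mem_filter.2 ⟨mem_univ _, rfl⟩) k l
      obtain ⟨k, hk⟩ := commonColumn_maximal (mqols_transpose hL) hc hn hNn _ (latin_transpose hX)
      exact ⟨k, fun h => hk (qo_transpose.2 h)⟩
    · have hc : CommonColumn L j := fun k l a =>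
        hag (a, j) (by rw [hj]; exact Finset.mem_filter.2 ⟨mem_univ _, rfl⟩) k l
      exact commonColumn_maximal hL hc hn hNn X hX

end Pool.Agent.Results.MP_dea8c9_co.CommonAgreement
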